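import Pool.Agent.H314.DipProof

set_option autoImplicit false

open Set
open Pool.Agent.H314.Flow

namespace Pool.Agent.Results.MP_5fa4f2_an.Dip

/-- The comparison principle fails: for every finite T > 0 there are a compact connected Kähler
surface, a closed semipositive big form θ = ω_t independent of time, a volume form μ > 0 (the square
of a Kähler form), F = 0, a bounded continuous viscosity subsolution u and a bounded viscosity
supersolution v with u ≤ v at time 0 and u > v somewhere at every time t in ]0,T[. -/
theorem result (T : ℝ) (hT : 0 < T) :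
    ∃ (X : Type) (_ : TopologicalSpace X) (_ : CompactSpace X) (_ : T2Space X)
      (_ : ConnectedSpace X) (A : HolAtlas X 2) (D : FlowData A) (u v : ℝ → X → ℝ),
      D.T = T ∧ D.Admissible ∧ (∀ t, D.omega t = D.theta) ∧ (∀ t x r, D.F t x r = 0) ∧
      (∀ t x, D.m t x = 1) ∧ IsSubsolution D u ∧ IsSupersolution D v ∧
      ContinuousOn (fun p : ℝ × X => u p.1 p.2) (Ico 0 T ×ˢ univ) ∧
      (∀ x, u 0 x ≤ v 0 x) ∧ ∀ t ∈ Ioo 0 T, ∃ x, v t x < u t x :=
  main T hT

end Pool.Agent.Results.MP_5fa4f2_an.Dip
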